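import Mathlib
import Pool.Agent.TH497.PW.IntFlow
import Pool.Agent.TH362.FP.Pos
import Pool.Agent.Helper335.Rel.Main
import Pool.Agent.Q287.FL.Balls

set_option autoImplicit false

/-!
# Few vertices outside a ball (MP_974d84_co)

Let `G` be a bridgeless multigraph and let `C_1, ..., C_m` be cycles, each with at most eleven edges
outside the union of the earlier ones; let `F` be the union.  If for some vertex `c` of `G / F` and
some `k ≤ 5` at most `127 - 3 * 2 ^ k` vertices of `G / F` have degree at least three and distance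
more than `k` from `c`, then `G` has a nowhere-zero 5-flow, and the characteristic polynomial of the
bond matroid of `G` is positive at all integers `q ≥ 5`.

The case `m = 0`, `k = 5` (`radius` below): every bridgeless multigraph in which at most 31 vertices
of degree at least three have distance more than five from a fixed vertex has a nowhere-zero
5-flow; in particular this holds for all bridgeless multigraphs of radius at most five, of any order
and with any degrees.  The bounds are attained by Tutte's 12-cage with 32, 80, 104, ... vertices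
outside a ball, so the method cannot give more.

Proof.  The class is closed under contractions, so a minimal counterexample has girth at least
twelve and all degrees at least three (apart from isolated vertices; libraries `Y335/FL` and
`Y358/IN`).  In such a graph paths of length at most five are geodesic and unique, so there are at
least `3 * 2 ^ (j - 1)` vertices at distance `j` from `c` for `j ≤ 5` and at least 32 vertices at
distance six.
-/

namespace Pool.Agent.Results.MP_974d84_co.BallsOfRadiusFive

variable {V E W : Type}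

/-- The edges with exactly one end in `Y`. -/
def boundary [DecidableEq V] [Fintype E] (src dst : E → V) (Y : Finset V) : Finset E :=
  Finset.univ.filter (fun e => ¬ (src e ∈ Y ↔ dst e ∈ Y))

/-- Kirchhoff's law. -/
def IsFlow [DecidableEq V] [Fintype E] (src dst : E → V) (f : E → ℤ) : Prop :=
  ∀ v : V, ∑ e ∈ Finset.univ.filter (fun e => src e = v), f e
    = ∑ e ∈ Finset.univ.filter (fun e => dst e = v), f e

/-- `C` is a cycle: the support of an integer flow with the values `0`, `1` and `-1`. -/
def IsCycle [DecidableEq V] [Fintype E] (src dst : E → V) (C : Finset E) : Prop :=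
  ∃ z : E → ℤ, IsFlow src dst z ∧ (∀ e, z e = 0 ∨ z e = 1 ∨ z e = -1) ∧ ∀ e, z e ≠ 0 ↔ e ∈ C

/-- The map `r` identifies only vertices which are joined by a path with edges in `F`; if `r` is
the map to the components of the graph `(V, F)` then `r ∘ src`, `r ∘ dst` is the graph `G / F` (with
the edges in `F` as loops). -/
def JoinedIn (src dst : E → V) (F : Finset E) (r : V → W) : Prop :=
  ∀ x y, r x = r y → (SimpleGraph.fromRel
    (fun u v : V => ∃ e ∈ F, src e = u ∧ dst e = v)).Reachable x y

/-- The number of the connected components of the graph with the vertices `V` and the edges `A`. -/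
noncomputable def components (src dst : E → V) (A : Finset E) : ℕ :=
  Nat.card (SimpleGraph.fromRel
    (fun u v : V => ∃ e ∈ A, src e = u ∧ dst e = v)).ConnectedComponent

/-- The rank of `A` in the cycle matroid of the graph. -/
noncomputable def cycleRank [Fintype V] (src dst : E → V) (A : Finset E) : ℕ :=
  Fintype.card V - components src dst A

/-- The rank of `A` in the bond matroid of the graph, the dual of the cycle matroid:
`|A| + r(E \ A) - r(E)`. -/
noncomputable def bondRank [Fintype V] [Fintype E] [DecidableEq E] (src dst : E → V)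
    (A : Finset E) : ℕ :=
  A.card + cycleRank src dst Aᶜ - cycleRank src dst Finset.univ

/-- The characteristic polynomial of the bond matroid at the integer `x`,
`∑ (-1)^|A| x^(r*(E) - r*(A))`. -/
noncomputable def bondCharPoly [Fintype V] [Fintype E] [DecidableEq E] (src dst : E → V)
    (x : ℤ) : ℤ :=
  ∑ A : Finset E, (-1) ^ A.card * x ^ (bondRank src dst Finset.univ - bondRank src dst A)

theorem isFlow_iff [DecidableEq V] [Fintype E] (src dst : E → V) (f : E → ℤ) :
    IsFlow src dst f ↔
      ∀ v, ∑ e, f e * ((if src e = v then 1 else 0) - (if dst e = v then 1 else 0)) = 0 := by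
  unfold IsFlow
  refine forall_congr' fun v => ?_
  rw [Finset.sum_filter, Finset.sum_filter, ← sub_eq_zero, ← Finset.sum_sub_distrib]
  have : ∀ e, (if src e = v then f e else 0) - (if dst e = v then f e else 0)
      = f e * ((if src e = v then 1 else 0) - (if dst e = v then 1 else 0)) := by
    intro e
    by_cases h1 : src e = v <;> by_cases h2 : dst e = v <;> simp [h1, h2]
  rw [Finset.sum_congr rfl (fun e _ => this e)]

theorem nzf [Fintype V] [DecidableEq V] [Fintype E] [DecidableEq E] (src dst : E → V)
    (h : Pool.Agent.TH676.Z.FlowOn src dst ∅ ∅) : Pool.Agent.TH497.PW.NZF src dst := by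
  obtain ⟨f, h1, _, h3⟩ := h
  refine ⟨f, fun e => h3 e (Finset.notMem_empty _) (Finset.notMem_empty _), fun x => ?_⟩
  rw [← h1 x]
  unfold Pool.Agent.TH676.Z.bd
  refine Finset.sum_congr rfl fun e _ => ?_
  unfold Pool.Agent.TH497.PW.ic
  by_cases h4 : src e = x <;> by_cases h5 : dst e = x <;> simp [h4, h5]

/-- the reduction modulo five of a flow with values in `{0, 1, -1}` -/
theorem mod5 [Fintype V] [DecidableEq V] [Fintype E] [DecidableEq E] (src dst : E → V)
    (C : Finset E) (h : IsCycle src dst C) :
    ∃ z : E → ZMod 5, (∀ v, Pool.Agent.TH676.Z.bd src dst z v = 0) ∧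
      (∀ e, z e = 0 ∨ z e = 1 ∨ z e = -1) ∧ ∀ e, z e ≠ 0 ↔ e ∈ C := by
  obtain ⟨z, h1, h2, h3⟩ := h
  refine ⟨fun e => ((z e : ℤ) : ZMod 5), fun v => ?_, fun e => ?_, fun e => ?_⟩
  · have h4 := h1 v
    rw [Finset.sum_filter, Finset.sum_filter, ← sub_eq_zero, ← Finset.sum_sub_distrib] at h4
    have h5 := congrArg (fun t : ℤ => (t : ZMod 5)) h4
    simp only [Int.cast_sum, Int.cast_sub, Int.cast_zero] at h5
    refine Eq.trans ?_ h5
    unfold Pool.Agent.TH676.Z.bd
    rw [Finset.sum_sub_distrib, Finset.sum_sub_distrib]
    congr 1 <;>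
    · refine Finset.sum_congr rfl fun e _ => ?_
      split_ifs <;> simp
  · rcases h2 e with h | h | h <;> simp [h]
  · rw [← h3 e]
    have h10 : (1 : ZMod 5) ≠ 0 := by decide
    rcases h2 e with h | h | h <;> simp [h, h10]

theorem finish [Fintype V] [DecidableEq V] [Fintype E] [DecidableEq E] (src dst : E → V)
    (h : Pool.Agent.TH676.Z.FlowOn src dst ∅ ∅) :
    (∃ f : E → ℤ, IsFlow src dst f ∧ ∀ e, 1 ≤ |f e| ∧ |f e| ≤ 4) ∧
      ∀ q : ℕ, 5 ≤ q → 0 < bondCharPoly src dst q := by
  obtain ⟨F, hF, hF0⟩ := Pool.Agent.TH497.PW.int_flow src dst (nzf src dst h)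
  have hF1 := (isFlow_iff src dst F).mpr hF0
  exact ⟨⟨F, hF1, hF⟩, fun q hq => Pool.Agent.TH362.FP.chr_pos src dst F hF hF1 q hq⟩

/-- The degree of `v`; loops are not counted. -/
def properDegree [DecidableEq V] [Fintype E] (src dst : E → V) (v : V) : ℕ :=
  (Finset.univ.filter (fun e => src e ≠ dst e ∧ (src e = v ∨ dst e = v))).card

/-- `v` has distance at most `k` from `c`: there is a sequence from `c` to `v` with `k` steps, each
of which stays at a vertex or goes along an edge. -/
def WithinDistance (src dst : E → V) (k : ℕ) (c v : V) : Prop :=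
  ∃ p : ℕ → V, p 0 = c ∧ p k = v ∧ ∀ i < k, p i = p (i + 1) ∨
    ∃ e, (src e = p i ∧ dst e = p (i + 1)) ∨ (src e = p (i + 1) ∧ dst e = p i)

theorem near_of {src dst : E → V} {k : ℕ} {c v : V} (h : WithinDistance src dst k c v) :
    Pool.Agent.Q287.FL.Near src dst k c v := by
  obtain ⟨p, h0, hk, hp⟩ := h
  refine ⟨p, h0, hk, fun i hi => ?_⟩
  by_cases h1 : p i = p (i + 1)
  · exact Or.inl h1
  · exact Or.inr ⟨h1, (hp i hi).resolve_left h1⟩

open Classical in
theorem flowOn_ball [Fintype V] [Fintype E] (src dst : E → V)
    (k : ℕ) (hk : k ≤ 5) (c : V) (hc : (Finset.univ.filter (fun v => 3 ≤ properDegree src dst v ∧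
      ¬ WithinDistance src dst k c v)).card + 3 * 2 ^ k ≤ 127)
    (hb : ∀ Y : Finset V, (boundary src dst Y).card ≠ 1) :
    Pool.Agent.TH676.Z.FlowOn src dst ∅ ∅ := by
  refine Pool.Agent.Q287.FL.flow_of_ClB k hk src dst ⟨c, le_trans (Nat.add_le_add_right
    (Finset.card_le_card ?_) _) hc⟩ (fun Y _ => by rw [Finset.sdiff_empty]; exact hb Y)
  intro v hv
  unfold Pool.Agent.Q287.FL.Out at hv
  rw [Finset.mem_filter] at hv ⊢
  exact ⟨hv.1, hv.2.1, fun h => hv.2.2 (near_of h)⟩

open Classical in
theorem result :
    ∀ (V E W : Type) [Fintype V] [Fintype E] [Fintype W]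
      (src dst : E → V) (m : ℕ) (C : Fin m → Finset E),
      (∀ i, IsCycle src dst (C i)) →
      (∀ i, (C i \ (Finset.univ.filter (fun j => j < i)).biUnion C).card ≤ 11) →
      ∀ r : V → W, JoinedIn src dst (Finset.univ.biUnion C) r →
      ∀ (k : ℕ) (c : W), k ≤ 5 →
      (Finset.univ.filter (fun v : W => 3 ≤ properDegree (r ∘ src) (r ∘ dst) v ∧
        ¬ WithinDistance (r ∘ src) (r ∘ dst) k c v)).card + 3 * 2 ^ k ≤ 127 →
      (∀ Y : Finset V, (boundary src dst Y).card ≠ 1) →
      (∃ f : E → ℤ, IsFlow src dst f ∧ ∀ e, 1 ≤ |f e| ∧ |f e| ≤ 4) ∧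
      ∀ q : ℕ, 5 ≤ q → 0 < bondCharPoly src dst q := by
  intro V E W _ _ _ src dst m C hC hnew r hr k c hk hc hb
  exact finish src dst (Pool.Agent.Helper335.Rel.relative src dst m C
    (fun i => mod5 src dst (C i) (hC i)) hnew r hr
    (flowOn_ball (r ∘ src) (r ∘ dst) k hk c hc
      (Pool.Agent.Helper335.Rel.br_quot src dst r hb)))

open Classical in
/-- At most 31 vertices of degree at least three have distance more than five from `c`. -/
theorem radius (V E : Type) [Fintype V] [Fintype E] (src dst : E → V) (c : V)
    (hc : (Finset.univ.filter (fun v : V => 3 ≤ properDegree src dst v ∧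
      ¬ WithinDistance src dst 5 c v)).card ≤ 31)
    (hb : ∀ Y : Finset V, (boundary src dst Y).card ≠ 1) :
    ∃ f : E → ℤ, IsFlow src dst f ∧ ∀ e, 1 ≤ |f e| ∧ |f e| ≤ 4 :=
  (result V E V src dst 0 (fun _ => ∅) (fun i => i.elim0) (fun i => i.elim0) id
    (fun x y h => by rw [show x = y from h]) 5 c le_rfl (by
      have : (3 * 2 ^ 5 : ℕ) = 96 := by norm_num
      rw [this]
      exact Nat.add_le_add_right hc 96) hb).1

end Pool.Agent.Results.MP_974d84_co.BallsOfRadiusFive
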